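import Mathlib

/-!
Two linear forms in the square-free algebra: a functional of degree `k` on the square-free algebra
in `2 k + 1` variables which vanishes on the ideal of two generic linear forms.
-/

set_option autoImplicit false

namespace Pool.Agent.Y77.SqFree

open MvPolynomial Finset

variable {K : Type*} [Field K] {n : ℕ}

/-- the product of the differences over all ordered pairs of distinct elements of `S` -/
def D (t : Fin n → K) (S : Finset (Fin n)) : K := ∏ i ∈ S, ∏ j ∈ S.erase i, (t i - t j)

lemma D_insert (t : Fin n → K) {T : Finset (Fin n)} {i : Fin n} (hi : i ∉ T) :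
    D t (insert i T) = D t T * ((-1) ^ T.card * ∏ j ∈ T, (t i - t j) ^ 2) := by
  unfold D
  rw [Finset.prod_insert hi, Finset.erase_insert hi]
  have h1 : ∀ j ∈ T, ∏ l ∈ (insert i T).erase j, (t j - t l) =
      (∏ l ∈ T.erase j, (t j - t l)) * (-1 * (t i - t j)) := by
    intro j hj
    have hij : i ≠ j := fun h => hi (h ▸ hj)
    rw [Finset.erase_insert_of_ne hij, Finset.prod_insert (fun h => hi (Finset.mem_of_mem_erase h))]
    ring
  rw [Finset.prod_congr rfl h1, Finset.prod_mul_distrib, Finset.prod_mul_distrib,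
    Finset.prod_const, Finset.prod_pow]
  ring

/-- the weights -/
noncomputable def w (a t : Fin n → K) (U : Finset (Fin n)) (i : Fin n) : K :=
  (a i * ∏ l ∈ U.erase i, (t i - t l))⁻¹

/-- the coefficients of the functional -/
noncomputable def cf (a t : Fin n → K) (U S : Finset (Fin n)) : K := (∏ i ∈ S, w a t U i) * D t S

lemma cf_insert (a t : Fin n → K) (U : Finset (Fin n)) {T : Finset (Fin n)} {i : Fin n}
    (hi : i ∉ T) : cf a t U (insert i T) =
      cf a t U T * (-1) ^ T.card * (w a t U i * ∏ j ∈ T, (t i - t j) ^ 2) := by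
  unfold cf
  rw [D_insert t hi, Finset.prod_insert hi]
  ring

/-- the Lagrange interpolation identity -/
lemma identity (a t : Fin n → K) (U T : Finset (Fin n)) (k : ℕ) (hU : U.card = 2 * k + 1)
    (hT : T.card + 1 = k) (_hTU : T ⊆ U) (ha : ∀ i ∈ U, a i ≠ 0) (ht : Set.InjOn t U)
    (e : ℕ) (he : e ≤ 1) :
    ∑ i ∈ U \ T, (a i * t i ^ e) * cf a t U (insert i T) = 0 := by
  have h1 : ∑ i ∈ U \ T, (a i * t i ^ e) * cf a t U (insert i T) =
      cf a t U T * (-1) ^ T.card *
        ∑ i ∈ U \ T, (t i ^ e * ∏ j ∈ T, (t i - t j) ^ 2) / ∏ l ∈ U.erase i, (t i - t l) := by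
    rw [Finset.mul_sum]
    refine Finset.sum_congr rfl fun i hi => ?_
    obtain ⟨hi1, hi2⟩ := Finset.mem_sdiff.mp hi
    rw [cf_insert a t U hi2]
    unfold w
    have := ha i hi1
    rw [mul_inv, div_eq_mul_inv]
    field_simp
  rw [h1]
  have h2 : ∑ i ∈ U \ T, (t i ^ e * ∏ j ∈ T, (t i - t j) ^ 2) / ∏ l ∈ U.erase i, (t i - t l) =
      ∑ i ∈ U, (t i ^ e * ∏ j ∈ T, (t i - t j) ^ 2) / ∏ l ∈ U.erase i, (t i - t l) := by
    refine Finset.sum_subset Finset.sdiff_subset fun i hi hi2 => ?_
    have hiT : i ∈ T := by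
      by_contra h
      exact hi2 (Finset.mem_sdiff.mpr ⟨hi, h⟩)
    rw [Finset.prod_eq_zero hiT (by simp), mul_zero, zero_div]
  rw [h2]
  let P : Polynomial K := Polynomial.X ^ e * ∏ j ∈ T, (Polynomial.X - Polynomial.C (t j)) ^ 2
  have hPe : ∀ i, P.eval (t i) = t i ^ e * ∏ j ∈ T, (t i - t j) ^ 2 := by
    intro i
    simp [P, Polynomial.eval_prod]
  have hPd : P.natDegree = e + 2 * T.card := by
    have hm : (∏ j ∈ T, (Polynomial.X - Polynomial.C (t j)) ^ 2 : Polynomial K).Monic :=
      Polynomial.monic_prod_of_monic _ _ fun j _ => (Polynomial.monic_X_sub_C _).pow 2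
    rw [show P = Polynomial.X ^ e * ∏ j ∈ T, (Polynomial.X - Polynomial.C (t j)) ^ 2 from rfl,
      (Polynomial.monic_X_pow e).natDegree_mul hm, Polynomial.natDegree_X_pow,
      Polynomial.natDegree_prod_of_monic _ _ fun j _ => (Polynomial.monic_X_sub_C _).pow 2]
    simp [Polynomial.natDegree_pow, mul_comm]
  have hlt : P.natDegree < U.card - 1 := by omega
  have h3 := Lagrange.coeff_eq_sum ht (P := P) (by
    refine lt_of_le_of_lt Polynomial.degree_le_natDegree ?_
    exact_mod_cast (by omega : P.natDegree < U.card))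
  rw [Polynomial.coeff_eq_zero_of_natDegree_lt hlt] at h3
  simp_rw [hPe] at h3
  rw [← h3, mul_zero]

/-- exponent of the square-free monomial -/
noncomputable def ex (S : Finset (Fin n)) : Fin n →₀ ℕ := ∑ i ∈ S, Finsupp.single i 1

lemma ex_apply (S : Finset (Fin n)) (v : Fin n) : ex S v = if v ∈ S then 1 else 0 := by
  unfold ex
  rw [Finsupp.finsetSum_apply]
  simp [Finsupp.single_apply]

lemma ex_inj {S T : Finset (Fin n)} (h : ex S = ex T) : S = T := by
  ext v
  have := DFunLike.congr_fun h v
  rw [ex_apply, ex_apply] at this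
  by_cases h1 : v ∈ S <;> by_cases h2 : v ∈ T <;> simp_all

/-- the functional -/
noncomputable def phi (a t : Fin n → K) (U : Finset (Fin n)) (k : ℕ) :
    MvPolynomial (Fin n) K →ₗ[K] K :=
  ∑ S ∈ U.powersetCard k, cf a t U S • MvPolynomial.lcoeff K (ex S)

lemma phi_apply (a t : Fin n → K) (U : Finset (Fin n)) (k : ℕ) (p : MvPolynomial (Fin n) K) :
    phi a t U k p = ∑ S ∈ U.powersetCard k, cf a t U S * p.coeff (ex S) := by
  unfold phi
  rw [LinearMap.sum_apply]
  rfl

lemma phi_sq (a t : Fin n → K) (U : Finset (Fin n)) (k : ℕ) (i : Fin n)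
    (q : MvPolynomial (Fin n) K) : phi a t U k (q * X i ^ 2) = 0 := by
  rw [phi_apply]
  refine Finset.sum_eq_zero fun S _ => ?_
  rw [show (X i ^ 2 : MvPolynomial (Fin n) K) = monomial (Finsupp.single i 2) 1 by
    rw [X_pow_eq_monomial], coeff_mul_monomial', if_neg, mul_zero]
  intro h
  have := h i
  rw [ex_apply, Finsupp.single_eq_same] at this
  split_ifs at this <;> omega

lemma phi_lin (a t : Fin n → K) (U : Finset (Fin n)) (k : ℕ) (hk : 1 ≤ k)
    (hU : U.card = 2 * k + 1)
    (ha : ∀ i ∈ U, a i ≠ 0) (ht : Set.InjOn t U) (e : ℕ) (he : e ≤ 1) (lam : Fin n → K)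
    (hlam : ∀ i ∈ U, lam i = a i * t i ^ e) (q : MvPolynomial (Fin n) K) :
    phi a t U k (q * ∑ i, C (lam i) * X i) = 0 := by
  classical
  induction q using MvPolynomial.induction_on' with
  | add p q hp hq => rw [add_mul, map_add, hp, hq, add_zero]
  | monomial m r =>
    have hterm : ∀ S, ((monomial m r : MvPolynomial (Fin n) K) * ∑ i, C (lam i) * X i).coeff (ex S) =
        ∑ i, if m + Finsupp.single i 1 = ex S then r * lam i else 0 := by
      intro S
      rw [Finset.mul_sum, coeff_sum]
      refine Finset.sum_congr rfl fun i _ => ?_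
      rw [show (C (lam i) * X i : MvPolynomial (Fin n) K) = monomial (Finsupp.single i 1) (lam i) by
        rw [C_mul_X_eq_monomial], monomial_mul, coeff_monomial]
    rw [phi_apply]
    simp_rw [hterm]
    by_cases hex : ∃ i S, S ∈ U.powersetCard k ∧ m + Finsupp.single i 1 = ex S
    · obtain ⟨i0, S0, hS0, hm0⟩ := hex
      obtain ⟨hS0U, hS0k⟩ := Finset.mem_powersetCard.mp hS0
      have hi0 : i0 ∈ S0 := by
        have := DFunLike.congr_fun hm0 i0
        rw [Finsupp.add_apply, ex_apply, Finsupp.single_eq_same] at this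
        by_contra h
        rw [if_neg h] at this
        omega
      set T := S0.erase i0 with hTdef
      have hTU : T ⊆ U := (Finset.erase_subset _ _).trans hS0U
      have hTk : T.card + 1 = k := by
        rw [hTdef, Finset.card_erase_of_mem hi0, hS0k]; omega
      have hmT : m = ex T := by
        ext v
        have := DFunLike.congr_fun hm0 v
        rw [Finsupp.add_apply, ex_apply, Finsupp.single_apply] at this
        rw [ex_apply, hTdef]
        by_cases hv : i0 = v
        · subst hv
          simp [hi0] at this ⊢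
          exact this
        · rw [if_neg hv, add_zero] at this
          rw [this]
          by_cases hvS : v ∈ S0
          · rw [if_pos hvS, if_pos (Finset.mem_erase.mpr ⟨Ne.symm hv, hvS⟩)]
          · rw [if_neg hvS, if_neg fun h => hvS (Finset.mem_of_mem_erase h)]
      have key : ∀ i S, m + Finsupp.single i 1 = ex S ↔ i ∉ T ∧ S = insert i T := by
        intro i S
        rw [hmT]
        constructor
        · intro h
          have hiT : i ∉ T := by
            intro hi
            have := DFunLike.congr_fun h i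
            rw [Finsupp.add_apply, ex_apply, ex_apply, if_pos hi, Finsupp.single_eq_same] at this
            split_ifs at this
            omega
          refine ⟨hiT, ?_⟩
          apply ex_inj
          rw [← h]
          ext v
          rw [Finsupp.add_apply, ex_apply, ex_apply, Finsupp.single_apply]
          by_cases hv : i = v
          · subst hv; simp [hiT]
          · simp [hv, Ne.symm hv]
        · rintro ⟨hi, rfl⟩
          ext v
          rw [Finsupp.add_apply, ex_apply, ex_apply, Finsupp.single_apply]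
          by_cases hv : i = v
          · subst hv; simp [hi]
          · simp [hv, Ne.symm hv]
      simp_rw [Finset.mul_sum]
      rw [Finset.sum_comm]
      have h5 : ∀ i, ∑ S ∈ U.powersetCard k,
          cf a t U S * (if m + Finsupp.single i 1 = ex S then r * lam i else 0) =
          if i ∈ U \ T then r * (lam i * cf a t U (insert i T)) else 0 := by
        intro i
        by_cases hi : i ∈ U \ T
        · obtain ⟨hi1, hi2⟩ := Finset.mem_sdiff.mp hi
          rw [if_pos hi, Finset.sum_eq_single (insert i T)]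
          · rw [if_pos ((key i _).mpr ⟨hi2, rfl⟩)]; ring
          · intro S _ hS
            rw [if_neg, mul_zero]
            intro h
            exact hS ((key i S).mp h).2
          · intro h
            exact absurd (Finset.mem_powersetCard.mpr ⟨Finset.insert_subset hi1 hTU,
              by rw [Finset.card_insert_of_notMem hi2, hTk]⟩) h
        · rw [if_neg hi]
          refine Finset.sum_eq_zero fun S hS => ?_
          rw [if_neg, mul_zero]
          intro h
          obtain ⟨h1, h2⟩ := (key i S).mp h
          apply hi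
          rw [Finset.mem_sdiff]
          refine ⟨(Finset.mem_powersetCard.mp hS).1 ?_, h1⟩
          rw [h2]; exact Finset.mem_insert_self _ _
      simp_rw [h5]
      rw [← Finset.sum_filter]
      have h6 : Finset.univ.filter (fun i => i ∈ U \ T) = U \ T := by
        ext; simp
      rw [h6, ← Finset.mul_sum]
      have h7 : ∑ i ∈ U \ T, lam i * cf a t U (insert i T) =
          ∑ i ∈ U \ T, (a i * t i ^ e) * cf a t U (insert i T) :=
        Finset.sum_congr rfl fun i hi => by rw [hlam i (Finset.mem_sdiff.mp hi).1]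
      rw [h7, identity a t U T k hU hTk hTU ha ht e he, mul_zero]
    · refine Finset.sum_eq_zero fun S hS => ?_
      rw [Finset.sum_eq_zero, mul_zero]
      intro i _
      rw [if_neg]
      intro h
      exact hex ⟨i, S, hS, h⟩

lemma cf_ne_zero (a t : Fin n → K) (U S : Finset (Fin n)) (hSU : S ⊆ U)
    (ha : ∀ i ∈ U, a i ≠ 0) (ht : Set.InjOn t U) : cf a t U S ≠ 0 := by
  have hd : ∀ i ∈ U, ∀ j ∈ U.erase i, t i - t j ≠ 0 := by
    intro i hi j hj h
    exact (Finset.mem_erase.mp hj).1 (ht (Finset.mem_of_mem_erase hj) hi (sub_eq_zero.mp h).symm)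
  unfold cf
  refine mul_ne_zero (Finset.prod_ne_zero_iff.mpr fun i hi => ?_)
    (Finset.prod_ne_zero_iff.mpr fun i hi => Finset.prod_ne_zero_iff.mpr fun j hj =>
      hd i (hSU hi) j (Finset.erase_subset_erase i hSU hj))
  unfold w
  exact inv_ne_zero (mul_ne_zero (ha i (hSU hi)) (Finset.prod_ne_zero_iff.mpr (hd i (hSU hi))))

/-- the square-free monomial of a `k`-subset of `U` is not in the ideal -/
theorem not_mem (a b : Fin n → K) (U S : Finset (Fin n)) (k : ℕ) (hk : 1 ≤ k)
    (hU : U.card = 2 * k + 1) (hSU : S ⊆ U) (hS : S.card = k)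
    (ha : ∀ i ∈ U, a i ≠ 0) (hb : ∀ i ∈ U, ∀ j ∈ U, i ≠ j → a i * b j ≠ a j * b i)
    (I : Ideal (MvPolynomial (Fin n) K))
    (hI : I ≤ Ideal.span (Set.range (fun i : Fin n => (X i : MvPolynomial (Fin n) K) ^ 2) ∪
      {∑ i, C (a i) * X i, ∑ i, C (b i) * X i})) :
    ∏ i ∈ S, X i ∉ I := by
  intro hmem
  have hmem' := hI hmem
  set t : Fin n → K := fun i => b i / a i with ht
  have htinj : Set.InjOn t U := by
    intro i hi j hj hij
    by_contra hne
    have h1 : b i / a i = b j / a j := hij
    rw [div_eq_div_iff (ha i hi) (ha j hj)] at h1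
    exact hb i hi j hj hne (by rw [mul_comm, ← h1, mul_comm])
  have hphi : ∀ p ∈ Ideal.span (Set.range (fun i : Fin n => (X i : MvPolynomial (Fin n) K) ^ 2) ∪
      {∑ i, C (a i) * X i, ∑ i, C (b i) * X i}), ∀ q, phi a t U k (q * p) = 0 := by
    intro p hp
    refine Submodule.span_induction ?_ (fun q => by rw [mul_zero, map_zero])
      (fun x y _ _ hx hy q => by rw [mul_add, map_add, hx, hy, add_zero]) ?_ hp
      (p := fun x _ => ∀ q, phi a t U k (q * x) = 0)
    · rintro x (⟨i, rfl⟩ | rfl | rfl) q
      · exact phi_sq a t U k i q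
      · exact phi_lin a t U k hk hU ha htinj 0 (by omega) a (fun i _ => by simp) q
      · exact phi_lin a t U k hk hU ha htinj 1 le_rfl b (fun i hi => by
          simp only [t, pow_one]
          rw [mul_div_cancel₀ _ (ha i hi)]) q
    · intro r x _ hx q
      rw [smul_eq_mul, ← mul_assoc]
      exact hx _
  have h1 := hphi _ hmem' 1
  rw [one_mul, phi_apply] at h1
  have hprod : (∏ i ∈ S, X i : MvPolynomial (Fin n) K) = monomial (ex S) 1 := by
    unfold ex
    rw [monomial_sum_one]
    rfl
  rw [hprod, Finset.sum_eq_single S] at h1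
  · rw [coeff_monomial, if_pos rfl, mul_one] at h1
    exact cf_ne_zero a t U S hSU ha htinj h1
  · intro S' _ hS'
    rw [coeff_monomial, if_neg (fun h => hS' (ex_inj h).symm), mul_zero]
  · intro h
    exact absurd (Finset.mem_powersetCard.mpr ⟨hSU, hS⟩) h

end Pool.Agent.Y77.SqFree
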