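import Mathlib
import Pool.Agent.Y593.LC.HC

/-!
# Consequences of the Reeb condition for the scale invariant forms on `ℝ⁴ ∖ 0`
-/

set_option autoImplicit false

open scoped ContDiff

namespace Pool.Agent.Y77.HF4

open Pool.Agent.H660R3 Pool.Agent.H660R3.Stair Real Pool.Agent.Y593.LC.HC

/-- the `i`-th term -/
noncomputable def tm (i : Fin 4) (y : EE 4) : ℝ := y i ^ 2 / n2 y * ee (th y - (i : ℕ) / 4)

/-- the index of the partner coordinate -/
def pa : Fin 4 → Fin 4 := ![1, 0, 3, 2]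

/-- its sign -/
def sg : Fin 4 → ℝ := ![1, -1, 1, -1]

theorem n2_pos' {y : EE 4} (h : y ≠ 0) : 0 < n2 y := by
  by_contra hn
  apply h
  have h1 : y 0 ^ 2 + y 1 ^ 2 + y 2 ^ 2 + y 3 ^ 2 ≤ 0 := not_lt.1 hn
  have a0 := sq_nonneg (y 0)
  have a1 := sq_nonneg (y 1)
  have a2 := sq_nonneg (y 2)
  have a3 := sq_nonneg (y 3)
  have b0 : y 0 = 0 := pow_eq_zero_iff (two_ne_zero) |>.1 (by linarith)
  have b1 : y 1 = 0 := pow_eq_zero_iff (two_ne_zero) |>.1 (by linarith)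
  have b2 : y 2 = 0 := pow_eq_zero_iff (two_ne_zero) |>.1 (by linarith)
  have b3 : y 3 = 0 := pow_eq_zero_iff (two_ne_zero) |>.1 (by linarith)
  ext i
  fin_cases i
  · exact b0
  · exact b1
  · exact b2
  · exact b3

/-- the sum of the squares divided by `|y|²` -/
theorem sum_sq {y : EE 4} (h : y ≠ 0) : ∑ i : Fin 4, y i ^ 2 / n2 y = 1 := by
  have hN := (n2_pos' h).ne'
  rw [← Finset.sum_div, div_eq_one_iff_eq hN, Fin.sum_univ_four, n2]

/-- the part of `dW` with the factors `1 - ee` -/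
theorem part2 {y : EE 4} (h : y ≠ 0) (c : ℝ) :
    ∑ i : Fin 4, y i ^ 2 / n2 y * ((1 - ee (th y - (i : ℕ) / 4)) * c) =
      c * (1 - ∑ i : Fin 4, tm i y) := by
  rw [← sum_sq h, ← Finset.sum_sub_distrib, Finset.mul_sum]
  refine Finset.sum_congr rfl fun i _ => ?_
  rw [tm]
  ring

theorem reeb_sum {ε : ℝ} (hε : 0 < ε) {y : EE 4} (hy : y ≠ 0) (u : EE 4) (hu : 0 < jp y u)
    (h : ∀ v, ε * (dW y u * (jp y v / n2 y) - dW y v * (jp y u / n2 y)) + d0 y u v = 0) :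
    ∑ i : Fin 4, tm i y = 1 := by
  have hN := n2_pos' hy
  have hN0 := hN.ne'
  have hl : (0 : ℝ) < Real.log 2 := Real.log_pos one_lt_two
  have h1 := h y
  have e1 : jp y y = 0 := by rw [jp]; ring
  have e2 : jp u y = - jp y u := by rw [jp, jp]; ring
  have e3 : ip y y = n2 y := by rw [ip, n2]; ring
  have e4 : d0 y u y = 0 := by
    rw [d0, e1, e2, e3]
    field_simp
    ring
  rw [e1, e4] at h1
  have h2 : dW y y = 0 := by
    have h3 : ε * (jp y u / n2 y) * dW y y = 0 := by linear_combination -h1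
    rcases mul_eq_zero.1 h3 with h4 | h4
    · exact absurd h4 (mul_pos hε (div_pos hu hN)).ne'
    · exact h4
  have h5 : dW y y = 1 / Real.log 2 * (1 - ∑ i : Fin 4, tm i y) := by
    rw [← part2 hy, dW]
    refine Finset.sum_congr rfl fun i _ => ?_
    rw [e3]
    field_simp
    ring
  rw [h5] at h2
  rcases mul_eq_zero.1 h2 with h4 | h4
  · exact absurd h4 (one_div_pos.2 hl).ne'
  · linarith

/-- the turning for a vector `(a y₀, a y₁, b y₂, b y₃)` -/
theorem turn {ε : ℝ} (hε : 0 < ε) (hε1 : 100 * ε < 1) {y : EE 4} (hy : y ≠ 0) (u : EE 4)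
    (hu : 0 < jp y u)
    (h : ∀ v, ε * (dW y u * (jp y v / n2 y) - dW y v * (jp y u / n2 y)) + d0 y u v = 0)
    (a b : ℝ) (ha : 0 ≤ a) (hb : 0 ≤ b)
    (hr : 0 < a * (y 0 ^ 2 + y 1 ^ 2) + b * (y 2 ^ 2 + y 3 ^ 2)) :
    0 < a * (y 0 * u 1 - y 1 * u 0) + b * (y 2 * u 3 - y 3 * u 2) := by
  have hsum := reeb_sum hε hy u hu h
  have hN := n2_pos' hy
  have hN0 := hN.ne'
  set r := a * (y 0 ^ 2 + y 1 ^ 2) + b * (y 2 ^ 2 + y 3 ^ 2) with hrd
  set T := a * (y 0 * u 1 - y 1 * u 0) + b * (y 2 * u 3 - y 3 * u 2) with hT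
  let v : EE 4 := !₂[a * y 0, a * y 1, b * y 2, b * y 3]
  have v0 : v 0 = a * y 0 := rfl
  have v1 : v 1 = a * y 1 := rfl
  have v2 : v 2 = b * y 2 := rfl
  have v3 : v 3 = b * y 3 := rfl
  have h1 := h v
  have e1 : jp y v = 0 := by rw [jp, v0, v1, v2, v3]; ring
  have e2 : jp u v = - T := by rw [jp, v0, v1, v2, v3, hT]; ring
  have e3 : ip y v = r := by rw [ip, v0, v1, v2, v3, hrd]; ring
  rw [d0, e1, e2, e3] at h1
  have hdW : dW y v = ∑ i : Fin 4, (2 * y i * v i / n2 y - 2 * y i ^ 2 * r / n2 y ^ 2) *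
      hs (th y - (i : ℕ) / 4) := by
    rw [dW, e3, Finset.sum_add_distrib, part2 hy, hsum, sub_self, mul_zero, add_zero]
  have hq : ∀ i : Fin 4, 0 ≤ 2 * y i * v i / n2 y := by
    intro i
    refine div_nonneg ?_ hN.le
    fin_cases i
    · show 0 ≤ 2 * y 0 * v 0
      rw [v0]
      nlinarith [mul_nonneg ha (sq_nonneg (y 0))]
    · show 0 ≤ 2 * y 1 * v 1
      rw [v1]
      nlinarith [mul_nonneg ha (sq_nonneg (y 1))]
    · show 0 ≤ 2 * y 2 * v 2
      rw [v2]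
      nlinarith [mul_nonneg hb (sq_nonneg (y 2))]
    · show 0 ≤ 2 * y 3 * v 3
      rw [v3]
      nlinarith [mul_nonneg hb (sq_nonneg (y 3))]
  have hq2 : ∀ i : Fin 4, 0 ≤ 2 * y i ^ 2 * r / n2 y ^ 2 := fun i =>
    div_nonneg (mul_nonneg (mul_nonneg two_pos.le (sq_nonneg _)) hr.le) (sq_nonneg _)
  have hb1 : |dW y v| ≤ 4 * r / n2 y := by
    rw [hdW]
    refine (Finset.abs_sum_le_sum_abs _ _).trans ?_
    have h3 : ∀ i ∈ (Finset.univ : Finset (Fin 4)),
        |(2 * y i * v i / n2 y - 2 * y i ^ 2 * r / n2 y ^ 2) * hs (th y - (i : ℕ) / 4)| ≤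
          2 * y i * v i / n2 y + 2 * y i ^ 2 * r / n2 y ^ 2 := by
      intro i _
      rw [abs_mul]
      have h4 : |2 * y i * v i / n2 y - 2 * y i ^ 2 * r / n2 y ^ 2| ≤
          2 * y i * v i / n2 y + 2 * y i ^ 2 * r / n2 y ^ 2 :=
        abs_le.2 ⟨by linarith [hq i, hq2 i], by linarith [hq i, hq2 i]⟩
      calc _ ≤ |2 * y i * v i / n2 y - 2 * y i ^ 2 * r / n2 y ^ 2| * 1 :=
            mul_le_mul_of_nonneg_left (hs_bound _) (abs_nonneg _)
        _ ≤ _ := by rw [mul_one]; exact h4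
    refine (Finset.sum_le_sum h3).trans (le_of_eq ?_)
    rw [Fin.sum_univ_four, v0, v1, v2, v3]
    have h5 : n2 y = y 0 ^ 2 + y 1 ^ 2 + y 2 ^ 2 + y 3 ^ 2 := rfl
    field_simp
    rw [hrd, h5]
    ring
  have hT2 : T = jp y u * (r / n2 y - ε / 2 * dW y v) := by
    field_simp at h1 ⊢
    linarith
  have h6 := abs_le.1 hb1
  have h7 : 0 < r / n2 y := div_pos hr hN
  have h8 : 4 * r / n2 y = 4 * (r / n2 y) := by ring
  rw [h8] at h6
  rw [hT2]
  refine mul_pos hu ?_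
  nlinarith [h6.2, h6.1]

theorem reeb_turn {ε K : ℝ} (hε : 0 < ε) (hK1 : 1 ≤ K) (hK : ∀ t, |ee t| ≤ K) (hεK : 100 * ε * K < 1)
    {y : EE 4} (hy : y ≠ 0) (u : EE 4) (hu : 0 < jp y u)
    (h : ∀ v, ε * (dW y u * (jp y v / n2 y) - dW y v * (jp y u / n2 y)) + d0 y u v = 0)
    (i : Fin 4) (hi : tm i y = 1) :
    0 < sg i * (y i * u (pa i) - y (pa i) * u i) := by
  have hε1 : 100 * ε < 1 := by nlinarith
  have hyi : y i ≠ 0 := by
    intro h0
    rw [tm, h0] at hi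
    norm_num at hi
  have hpos : 0 < y i ^ 2 := by positivity
  fin_cases i
  · have h1 := turn hε hε1 hy u hu h 1 0 zero_le_one le_rfl (by
      have := sq_nonneg (y 1)
      have h2 : 0 < y 0 ^ 2 := hpos
      linarith)
    show 0 < (1 : ℝ) * (y 0 * u 1 - y 1 * u 0)
    linarith
  · have h1 := turn hε hε1 hy u hu h 1 0 zero_le_one le_rfl (by
      have := sq_nonneg (y 0)
      have h2 : 0 < y 1 ^ 2 := hpos
      linarith)
    show 0 < (-1 : ℝ) * (y 1 * u 0 - y 0 * u 1)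
    linarith
  · have h1 := turn hε hε1 hy u hu h 0 1 le_rfl zero_le_one (by
      have := sq_nonneg (y 3)
      have h2 : 0 < y 2 ^ 2 := hpos
      linarith)
    show 0 < (1 : ℝ) * (y 2 * u 3 - y 3 * u 2)
    linarith
  · have h1 := turn hε hε1 hy u hu h 0 1 le_rfl zero_le_one (by
      have := sq_nonneg (y 2)
      have h2 : 0 < y 3 ^ 2 := hpos
      linarith)
    show 0 < (-1 : ℝ) * (y 3 * u 2 - y 2 * u 3)
    linarith

end Pool.Agent.Y77.HF4

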