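import Pool.Agent.Y593.LG.Defs

/-!
# A smooth staircase function with narrow steps
-/

set_option autoImplicit false

open Set Filter Topology
open scoped ContDiff

namespace Pool.Agent.Y77.HGA

open Pool.Agent.H660R3 Real Pool.Agent.Y593.LG

theorem one_of {N x : ℝ} (hN : 1 ≤ N) (hx : 1 / 4 ≤ x) : 1 ≤ 2 * N * x + 1 / 2 := by
  nlinarith [mul_le_mul_of_nonneg_right hN (show (0 : ℝ) ≤ x by linarith)]

theorem zero_of {N x : ℝ} (hN : 1 ≤ N) (hx : x ≤ -(1 / 4)) : 2 * N * x + 1 / 2 ≤ 0 := by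
  nlinarith [mul_le_mul_of_nonneg_right hN (show (0 : ℝ) ≤ -x by linarith)]

theorem Es_add_int (N : ℕ) (t : ℝ) (m : ℤ) : Es N (t + m) = Es N t + m := by
  unfold Es
  rw [Int.floor_add_intCast, Int.fract_add_intCast]
  push_cast; ring

theorem Es_local {N : ℕ} (hN : 0 < N) (t₀ : ℝ) : ∀ᶠ t in 𝓝 t₀,
    Es N t = ⌊t₀⌋ + Real.smoothTransition (2 * N * (t - ⌊t₀⌋ - 1 / 2) + 1 / 2) := by
  have hN1 : (1 : ℝ) ≤ N := by exact_mod_cast hN
  set k : ℤ := ⌊t₀⌋ with hk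
  have h1 : (k : ℝ) ≤ t₀ := Int.floor_le t₀
  have h2 : t₀ < k + 1 := Int.lt_floor_add_one t₀
  have h3 : ∀ᶠ t in 𝓝 t₀, (k : ℝ) - 1 / 4 < t := lt_mem_nhds (by linarith)
  have h4 : ∀ᶠ t in 𝓝 t₀, t < (k : ℝ) + 1 + 1 / 4 := gt_mem_nhds (by linarith)
  filter_upwards [h3, h4] with t ht1 ht2
  unfold Es
  rcases lt_or_ge t k with h | h
  · have hf : ⌊t⌋ = k - 1 := by
      rw [Int.floor_eq_iff]; push_cast; constructor <;> linarith
    have hfr : Int.fract t = t - k + 1 := by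
      rw [Int.fract, hf]; push_cast; ring
    rw [hf, hfr, Real.smoothTransition.one_of_one_le (one_of hN1 (by linarith)),
      Real.smoothTransition.zero_of_nonpos (zero_of hN1 (by linarith))]
    push_cast; ring
  · rcases lt_or_ge t (k + 1) with h' | h'
    · have hf : ⌊t⌋ = k := by
        rw [Int.floor_eq_iff]; constructor <;> linarith
      have hfr : Int.fract t = t - k := by
        rw [Int.fract, hf]
      rw [hf, hfr]
    · have hf : ⌊t⌋ = k + 1 := by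
        rw [Int.floor_eq_iff]; push_cast; constructor <;> linarith
      have hfr : Int.fract t = t - k - 1 := by
        rw [Int.fract, hf]; push_cast; ring
      rw [hf, hfr, Real.smoothTransition.zero_of_nonpos (zero_of hN1 (by linarith)),
        Real.smoothTransition.one_of_one_le (one_of hN1 (by linarith))]
      push_cast; ring

theorem Es_smooth {N : ℕ} (hN : 0 < N) : ContDiff ℝ ∞ (Es N) := by
  rw [contDiff_iff_contDiffAt]
  intro t₀
  have h : ContDiff ℝ ∞ fun t : ℝ => (⌊t₀⌋ : ℝ) +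
      Real.smoothTransition (2 * N * (t - ⌊t₀⌋ - 1 / 2) + 1 / 2) := by
    apply contDiff_const.add
    exact Real.smoothTransition.contDiff.comp (by fun_prop)
  exact h.contDiffAt.congr_of_eventuallyEq (Es_local hN t₀)

theorem hasDerivAt_Es {N : ℕ} (hN : 0 < N) (t : ℝ) : HasDerivAt (Es N) (ee N t) t :=
  ((Es_smooth hN).differentiable (by simp)).differentiableAt.hasDerivAt

theorem ee_continuous {N : ℕ} (hN : 0 < N) : Continuous (ee N) :=
  (Es_smooth hN).continuous_deriv (by simp)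

theorem ee_add_int {N : ℕ} (hN : 0 < N) (t : ℝ) (m : ℤ) : ee N (t + m) = ee N t := by
  have h1 : HasDerivAt (fun s => Es N (s + m)) (ee N (t + m)) t :=
    (hasDerivAt_Es hN (t + m)).comp_add_const t m
  have h2 : HasDerivAt (fun s => Es N (s + m)) (ee N t) t := by
    have : (fun s => Es N (s + m)) = fun s => Es N s + m := funext fun s => Es_add_int N s m
    rw [this]
    exact (hasDerivAt_Es hN t).add_const _
  exact h1.unique h2

theorem ee_supp {N : ℕ} (hN : 0 < N) {t : ℝ} (h : ee N t ≠ 0) :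
    -1 ≤ 4 * N * (Int.fract t - 1 / 2) ∧ 4 * N * (Int.fract t - 1 / 2) ≤ 1 := by
  by_contra hcon
  apply h
  rw [not_and_or, not_le, not_le] at hcon
  have hl := Es_local hN t
  have hcont : Continuous fun s : ℝ => 4 * (N : ℝ) * (s - ⌊t⌋ - 1 / 2) := by fun_prop
  rcases hcon with hc | hc
  · have h1 : ∀ᶠ s : ℝ in 𝓝 t, Es N s = (⌊t⌋ : ℝ) := by
      have h2 : ∀ᶠ s : ℝ in 𝓝 t, 4 * (N : ℝ) * (s - ⌊t⌋ - 1 / 2) < -1 := by
        rw [Int.fract] at hc
        exact (hcont.tendsto t).eventually (gt_mem_nhds hc)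
      filter_upwards [hl, h2] with s hs1 hs2
      rw [hs1, Real.smoothTransition.zero_of_nonpos (by linarith), add_zero]
    have h3 : Es N =ᶠ[𝓝 t] fun _ => (⌊t⌋ : ℝ) := h1
    unfold ee
    rw [h3.deriv_eq]
    simp
  · have h1 : ∀ᶠ s : ℝ in 𝓝 t, Es N s = (⌊t⌋ : ℝ) + 1 := by
      have h2 : ∀ᶠ s : ℝ in 𝓝 t, 1 < 4 * (N : ℝ) * (s - ⌊t⌋ - 1 / 2) := by
        rw [Int.fract] at hc
        exact (hcont.tendsto t).eventually (lt_mem_nhds hc)
      filter_upwards [hl, h2] with s hs1 hs2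
      rw [hs1, Real.smoothTransition.one_of_one_le (by linarith)]
    have h3 : Es N =ᶠ[𝓝 t] fun _ => (⌊t⌋ + 1 : ℝ) := h1
    unfold ee
    rw [h3.deriv_eq]
    simp

theorem ee_bounded {N : ℕ} (hN : 0 < N) : ∃ K : ℝ, 1 ≤ K ∧ ∀ t, |ee N t| ≤ K := by
  obtain ⟨C, hC⟩ := (isCompact_Icc (a := (0:ℝ)) (b := 1)).exists_bound_of_continuousOn
    (ee_continuous hN).continuousOn
  refine ⟨max C 1, le_max_right _ _, fun t => ?_⟩
  have h1 : ee N t = ee N (Int.fract t) := by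
    have := ee_add_int hN (Int.fract t) ⌊t⌋
    rw [Int.fract_add_floor] at this
    exact this
  rw [h1]
  exact (hC _ ⟨Int.fract_nonneg t, (Int.fract_lt_one t).le⟩).trans (le_max_left _ _)

theorem hs_add_int (N : ℕ) (t : ℝ) (m : ℤ) : hs N (t + m) = hs N t := by
  unfold hs; rw [Es_add_int]; ring

theorem hs_bound (N : ℕ) (t : ℝ) : |hs N t| ≤ 1 := by
  have h1 : hs N t =
      Int.fract t - Real.smoothTransition (2 * N * (Int.fract t - 1 / 2) + 1 / 2) := by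
    unfold hs Es
    rw [Int.fract]; ring
  rw [h1, abs_le]
  have h2 := Int.fract_nonneg t
  have h3 := Int.fract_lt_one t
  have h4 := Real.smoothTransition.nonneg (2 * N * (Int.fract t - 1 / 2) + 1 / 2)
  have h5 := Real.smoothTransition.le_one (2 * N * (Int.fract t - 1 / 2) + 1 / 2)
  constructor <;> linarith

theorem hs_smooth {N : ℕ} (hN : 0 < N) : ContDiff ℝ ∞ (hs N) := contDiff_id.sub (Es_smooth hN)

theorem hasDerivAt_hs {N : ℕ} (hN : 0 < N) (t : ℝ) : HasDerivAt (hs N) (1 - ee N t) t :=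
  (hasDerivAt_id t).sub (hasDerivAt_Es hN t)

/-- the supports of the translates by `i/N` are disjoint. -/
theorem ee_disjoint {N : ℕ} (hN : 0 < N) (t : ℝ) (i j : Fin N) (hi : ee N (t - (i : ℕ) / N) ≠ 0)
    (hj : ee N (t - (j : ℕ) / N) ≠ 0) : i = j := by
  have hN0 : (N : ℝ) ≠ 0 := by exact_mod_cast hN.ne'
  obtain ⟨a1, a2⟩ := ee_supp hN hi
  obtain ⟨b1, b2⟩ := ee_supp hN hj
  rw [Int.fract] at a1 a2 b1 b2
  set k := ⌊t - (i : ℕ) / (N : ℝ)⌋
  set l := ⌊t - (j : ℕ) / (N : ℝ)⌋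
  have ei : (N : ℝ) * (((i : ℕ) : ℝ) / N) = (i : ℕ) := mul_div_cancel₀ _ hN0
  have ej : (N : ℝ) * (((j : ℕ) : ℝ) / N) = (j : ℕ) := mul_div_cancel₀ _ hN0
  have fi : 4 * (N : ℝ) * (t - ((i : ℕ) : ℝ) / N - k - 1 / 2) =
      4 * (N * t) - 4 * (i : ℕ) - 4 * (N * k) - 2 * N := by linear_combination (-4) * ei
  have fj : 4 * (N : ℝ) * (t - ((j : ℕ) : ℝ) / N - l - 1 / 2) =
      4 * (N * t) - 4 * (j : ℕ) - 4 * (N * l) - 2 * N := by linear_combination (-4) * ej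
  rw [fi] at a1 a2
  rw [fj] at b1 b2
  have h1 : (((j : ℕ) : ℤ) - ((i : ℕ) : ℤ) - (N : ℤ) * k + (N : ℤ) * l : ℝ) < 1 := by
    push_cast; linarith
  have h2 : (-1 : ℝ) < (((j : ℕ) : ℤ) - ((i : ℕ) : ℤ) - (N : ℤ) * k + (N : ℤ) * l : ℝ) := by
    push_cast; linarith
  have h3 : ((j : ℕ) : ℤ) - ((i : ℕ) : ℤ) - (N : ℤ) * k + (N : ℤ) * l < 1 := by exact_mod_cast h1
  have h4 : (-1 : ℤ) < ((j : ℕ) : ℤ) - ((i : ℕ) : ℤ) - (N : ℤ) * k + (N : ℤ) * l := by
    exact_mod_cast h2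
  have hi4 := i.2
  have hj4 := j.2
  have h5 : ((j : ℕ) : ℤ) - ((i : ℕ) : ℤ) = (N : ℤ) * (k - l) := by
    have h6 : (N : ℤ) * (k - l) = (N : ℤ) * k - (N : ℤ) * l := mul_sub _ _ _
    omega
  have h7 : ((j : ℕ) : ℤ) - ((i : ℕ) : ℤ) = 0 := by
    refine Int.eq_zero_of_abs_lt_dvd (m := (N : ℤ)) ⟨k - l, h5⟩ ?_
    rw [abs_lt]
    constructor <;> omega
  apply Fin.ext
  omega

end Pool.Agent.Y77.HGA

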